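import Pool.Agent.Helper41_IR.Stmts

/-!
# IR, module KHB (helper84): the derivative of `BB` in a random direction
-/

set_option autoImplicit false

open MeasureTheory ProbabilityTheory

open scoped ENNReal NNReal BigOperators

noncomputable section

namespace Pool.Agent.IR.H84

open Matrix Pool.Agent.Anderson Pool.Agent.Loc Pool.Agent.BED

variable {d M : ℕ} [NeZero M]

theorem kk_neg (b : Tor d M → ℝ) (ε : ℝ) (θ : Tor d M) : kk b ε (-θ) = kk b ε θ := by
  unfold kk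
  rw [bh_neg]

theorem kk_inv (b : Tor d M → ℝ) (ε : ℝ) (θ : Tor d M) :
    (kk b ε θ)⁻¹ = Real.sqrt ((1 - bh b θ) ^ 2 + ε ^ 2) := by
  unfold kk
  rw [one_div, inv_inv]

theorem mulM_transpose (u : Tor d M → ℝ) : (mulM u)ᵀ = mulM u := by
  ext x y
  unfold mulM
  rw [Matrix.transpose_apply, Matrix.of_apply, Matrix.of_apply]
  congr 1
  refine Finset.sum_congr rfl fun θ _ => ?_
  rw [← cos_ph_neg θ (y - x), neg_sub]

theorem GP_transpose {l : ℕ} {E : ℝ} {V : Tor d M → ℝ} (h : (AP l E V).PosDef) :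
    (GP l E V)ᵀ = GP l E V := by
  unfold GP
  have h1 : (AP l E V)ᵀ = AP l E V := by
    have := h.isHermitian.eq
    rwa [Matrix.conjTranspose_eq_transpose_of_trivial] at this
  rw [Matrix.transpose_nonsing_inv, h1]

theorem khb (hGap : GapStmt) (hGrow : GrowStmt) (hFour : FourStmt) (hKhi : KhiStmt) :
    KhbStmt := by
  intro d hd
  obtain ⟨Cr, hCr, hgrow⟩ := hGrow d hd
  refine ⟨24 * Cr, by positivity, ?_⟩
  intro M l _ z μ E V b ε Cg s ρ v p hP hV hb hε hε2 hCg hK hs hρ hp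
  obtain ⟨-, hPD, -, hGle, -⟩ := hGap d M l z μ E V hP hV
  obtain ⟨hF1, hF2, hF3, hF4, hF5, hF6, hF7⟩ := hFour d M
  have hl : 1 ≤ l := hP.hl
  have hl0 : (0 : ℝ) < l := by exact_mod_cast (by omega : 0 < l)
  have hd0 : (0 : ℝ) < d := by exact_mod_cast (by omega : 0 < d)
  have hld : (0 : ℝ) < (l : ℝ) ^ d := by positivity
  have hM3 : (3 : ℝ) ≤ M := by exact_mod_cast hP.hM
  have hsL : 0 < sL d l := by unfold sL; positivity
  have hsL2 : sL d l ^ 2 * (d * (l : ℝ) ^ 2) ^ 2 = 4 := by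
    unfold sL
    field_simp
    norm_num
  have hlogM : 1 ≤ Real.log M := by
    rw [Real.le_log_iff_exp_le (by linarith)]
    have := Real.exp_one_lt_d9
    linarith
  have hlogMd : 1 ≤ Real.log M ^ d := one_le_pow₀ hlogM
  have hloge : 1 / 2 ≤ Real.log (1 / ε) := by
    rw [Real.le_log_iff_exp_le (by positivity)]
    have h1 : Real.exp (1 / 2) ≤ 2 := by
      have h2 : Real.exp (1 / 2) ^ 2 ≤ 2 ^ 2 := by
        rw [← Real.exp_nat_mul]
        have := Real.exp_one_lt_d9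
        norm_num
        linarith
      exact le_of_sq_le_sq h2 (by norm_num)
    have h3 : 2 ≤ 1 / ε := by
      rw [le_div_iff₀ hε]; linarith
    linarith
  -- the matrix
  set k := kk b ε with hk
  have hkpos : ∀ θ, 0 < k θ := fun θ => kk_pos b hε θ
  have hkle : ∀ θ, k θ ≤ 1 / ε := fun θ => kk_le b hε θ
  set S : Matrix (Tor d M) (Tor d M) ℝ := mulM fun θ => Real.sqrt (k θ) with hS
  have hSeven : ∀ θ, Real.sqrt (k (-θ)) = Real.sqrt (k θ) := fun θ => by rw [hk, kk_neg]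
  set T : Matrix (Tor d M) (Tor d M) ℝ :=
    Real.sqrt (sL d l) • (S * (QM d M l * GP l E V)) with hT
  have hSt : Sᵀ = S := mulM_transpose _
  have hGt : (GP l E V)ᵀ = GP l E V := GP_transpose hPD
  have hsqrt : Real.sqrt (sL d l) ^ 2 = sL d l := Real.sq_sqrt hsL.le
  have hTu : ∀ u, sqn (T *ᵥ u) =
      sL d l * ∑ θ, k θ * ft ((QM d M l * GP l E V) *ᵥ u) θ := by
    intro u
    rw [hT, Matrix.smul_mulVec, sqn_smul, hsqrt, ← Matrix.mulVec_mulVec, ← hF1]
    congr 1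
    refine Finset.sum_congr rfl fun θ _ => ?_
    rw [hS, hF5 _ _ _ hSeven, Real.sq_sqrt (hkpos θ).le]
  -- kappa
  set κ : ℝ := sL d l * (3 * Cg * Cr * Real.log (1 / ε) * Real.log M ^ d * (l : ℝ) ^ 4 /
    (l : ℝ) ^ d) with hκ
  have hκ0 : 0 ≤ κ := by
    rw [hκ]
    have : 0 ≤ Real.log (1 / ε) := by linarith
    positivity
  have hcol : ∀ y, ∑ x, T x y ^ 2 ≤ κ := by
    intro y
    have h1 : ∑ x, T x y ^ 2 = sqn (T *ᵥ (Pi.single y 1)) := by
      unfold sqn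
      refine Finset.sum_congr rfl fun x _ => ?_
      rw [mulVec_single_one]
    rw [h1, hTu, hκ]
    refine mul_le_mul_of_nonneg_left ?_ hsL.le
    set g : Tor d M → ℝ := (QM d M l * GP l E V) *ᵥ (Pi.single y 1) with hg
    have hgx : ∀ x, g x = (GP l E V * (QM d M l)ᵀ) y x := by
      intro x
      rw [hg, mulVec_single_one]
      have h2 : (QM d M l * GP l E V)ᵀ = GP l E V * (QM d M l)ᵀ := by
        rw [Matrix.transpose_mul, hGt]
      rw [← h2, Matrix.transpose_apply]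
    obtain ⟨hg1, hg2⟩ := hgrow M l z μ E V hP hV y
    have hg1' : (l : ℝ) ^ d * sqn g ≤ Cr * (l : ℝ) ^ 4 := by
      unfold sqn
      simp only [hgx]
      exact hg1
    have hg2' : (∑ x, |g x|) ^ 2 ≤ Cr * Real.log M ^ d * (l : ℝ) ^ 4 := by
      simp only [hgx]
      exact hg2
    have hKg := hK g
    rw [le_div_iff₀ hld, mul_comm]
    refine hKg.trans ?_
    have e0 : 0 ≤ Real.log (1 / ε) := by linarith
    have e1 : Real.log (1 / ε) * (∑ x, |g x|) ^ 2 ≤
        Real.log (1 / ε) * (Cr * Real.log M ^ d * (l : ℝ) ^ 4) :=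
      mul_le_mul_of_nonneg_left hg2' e0
    have e2 : 1 ≤ 2 * Real.log (1 / ε) * Real.log M ^ d := by nlinarith
    have e3 : Cr * (l : ℝ) ^ 4 ≤ Cr * (l : ℝ) ^ 4 * (2 * Real.log (1 / ε) * Real.log M ^ d) :=
      le_mul_of_one_le_right (by positivity) e2
    have e4 : Cg * ((l : ℝ) ^ d * sqn g + Real.log (1 / ε) * (∑ x, |g x|) ^ 2) ≤
        Cg * (Cr * (l : ℝ) ^ 4 * (2 * Real.log (1 / ε) * Real.log M ^ d) +
          Real.log (1 / ε) * (Cr * Real.log M ^ d * (l : ℝ) ^ 4)) :=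
      mul_le_mul_of_nonneg_left (by linarith) (by linarith)
    refine e4.trans (le_of_eq ?_)
    ring
  -- L
  set L : ℝ := sL d l * ((d * (l : ℝ) ^ 2) ^ 2 / ε) with hL
  have hL0 : 0 ≤ L := by rw [hL]; positivity
  have hop : ∀ u, sqn (T *ᵥ u) ≤ L * sqn u := by
    intro u
    rw [hTu, hL, mul_assoc]
    refine mul_le_mul_of_nonneg_left ?_ hsL.le
    have h1 : ∑ θ, k θ * ft ((QM d M l * GP l E V) *ᵥ u) θ ≤
        ∑ θ, 1 / ε * ft ((QM d M l * GP l E V) *ᵥ u) θ :=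
      Finset.sum_le_sum fun θ _ => mul_le_mul_of_nonneg_right (hkle θ) (ft_nonneg _ _)
    rw [← Finset.mul_sum, hF1] at h1
    have h0 : sqn ((QM d M l * GP l E V) *ᵥ u) = sqn (QM d M l *ᵥ (GP l E V *ᵥ u)) := by
      rw [← Matrix.mulVec_mulVec]
    rw [h0] at h1
    have h2 := (sqn_QM_le hl (GP l E V *ᵥ u)).trans (hGle u)
    have h3 : 1 / ε * sqn (QM d M l *ᵥ (GP l E V *ᵥ u)) ≤
        1 / ε * ((d * (l : ℝ) ^ 2) ^ 2 * sqn u) := mul_le_mul_of_nonneg_left h2 (by positivity)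
    refine h1.trans (h3.trans (le_of_eq ?_))
    ring
  -- apply Khintchine
  have hkhi := hKhi (Tor d M) T v κ L s ρ p hκ0 hL0 hs hρ hp hcol hop
  refine le_trans (measure_mono ?_) (hkhi.trans (ENNReal.ofReal_le_ofReal ?_))
  · rintro D ⟨hD, w, hw⟩
    refine ⟨hD, mulM (fun θ => 1 / Real.sqrt (k θ)) *ᵥ w, ?_⟩
    set a := mulM (fun θ => 1 / Real.sqrt (k θ)) *ᵥ w with ha
    have heven : ∀ θ, 1 / Real.sqrt (k (-θ)) = 1 / Real.sqrt (k θ) := fun θ => by rw [hSeven]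
    have hsqa : sqn a = NK b ε w := by
      rw [← hF1]
      unfold NK
      refine Finset.sum_congr rfl fun θ _ => ?_
      rw [ha, hF5 _ _ _ heven, div_pow, one_pow, Real.sq_sqrt (hkpos θ).le, one_div, hk, kk_inv]
    have hSa : S *ᵥ a = w := by
      rw [ha, Matrix.mulVec_mulVec, hS, hF3 _ _ hSeven heven]
      have : (fun θ => Real.sqrt (k θ) * (1 / Real.sqrt (k θ))) = fun _ : Tor d M => (1 : ℝ) := by
        funext θ
        have : 0 < Real.sqrt (k θ) := Real.sqrt_pos.2 (hkpos θ)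
        field_simp
      rw [this, hF2, Matrix.one_mulVec]
    have hTa : Tᵀ *ᵥ a = Real.sqrt (sL d l) • (GP l E V *ᵥ ((QM d M l)ᵀ *ᵥ w)) := by
      rw [hT, Matrix.transpose_smul, Matrix.transpose_mul, Matrix.transpose_mul, hSt, hGt,
        Matrix.smul_mulVec, ← Matrix.mulVec_mulVec, ← Matrix.mulVec_mulVec, hSa]
    have hsum : ∑ y, D y * ((Tᵀ *ᵥ a) y) ^ 2 = dB l E V D w := by
      unfold dB
      rw [hTa, Finset.mul_sum]
      refine Finset.sum_congr rfl fun y _ => ?_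
      rw [Pi.smul_apply, smul_eq_mul, mul_pow, hsqrt]; ring
    rw [hsum, hsqa]
    exact hw
  · have hcard : (Fintype.card (Tor d M) : ℝ) = (M : ℝ) ^ d := by
      simp [ZMod.card]
    rw [hcard]
    refine mul_le_mul_of_nonneg_left (le_of_eq ?_) (by positivity)
    congr 1
    rw [hκ, hL]
    have e1 : 2 * (p : ℝ) * (s ^ 2 * (sL d l * (3 * Cg * Cr * Real.log (1 / ε) * Real.log M ^ d *
        (l : ℝ) ^ 4 / (l : ℝ) ^ d)) * (sL d l * ((d * (l : ℝ) ^ 2) ^ 2 / ε))) / ρ ^ 2 =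
        (sL d l ^ 2 * (d * (l : ℝ) ^ 2) ^ 2) * (6 * p * Cg * Cr * s ^ 2 * Real.log (1 / ε) *
        Real.log M ^ d * (l : ℝ) ^ 4 / ((l : ℝ) ^ d * ε * ρ ^ 2)) := by
      field_simp
      ring
    rw [e1, hsL2]
    ring

end Pool.Agent.IR.H84
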